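import Pool.Agent.H389R2.Dim.Lower

/-!
Approximate double points of a curve: closedness and passage to the limit.
-/

set_option autoImplicit false

namespace Pool.Agent.W174.DP

open Set Filter Topology Metric Pool.Agent.H389R2.Dim

/-- Approximate double points. -/
def DD (η ε : ℝ) (B : Set ℂ) (f : C(unitInterval, ℂ)) : Set ℂ :=
  {z | z ∈ B ∧ ∃ s u t : unitInterval, s ≤ u ∧ u ≤ t ∧ dist (f s) z ≤ ε ∧ dist (f t) z ≤ ε ∧
    η ≤ dist (f u) z + ε}

theorem DD_mono {η ε ε' : ℝ} (h : ε ≤ ε') (B : Set ℂ) (f : C(unitInterval, ℂ)) :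
    DD η ε B f ⊆ DD η ε' B f := by
  rintro z ⟨hz, s, u, t, h1, h2, h3, h4, h5⟩
  exact ⟨hz, s, u, t, h1, h2, h3.trans h, h4.trans h, h5.trans (by linarith)⟩

theorem closed_cond (η ε : ℝ) {K : Set ℂ} :
    IsClosed {p : C(unitInterval, ℂ) × (K × unitInterval × unitInterval × unitInterval) |
      p.2.2.1 ≤ p.2.2.2.1 ∧ p.2.2.2.1 ≤ p.2.2.2.2 ∧ dist (p.1 p.2.2.1) (p.2.1 : ℂ) ≤ ε ∧
      dist (p.1 p.2.2.2.2) (p.2.1 : ℂ) ≤ ε ∧ η ≤ dist (p.1 p.2.2.2.1) (p.2.1 : ℂ) + ε} := by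
  have c1 : Continuous (fun p : C(unitInterval, ℂ) ×
      (K × unitInterval × unitInterval × unitInterval) => p.1 p.2.2.1) := by fun_prop
  have c2 : Continuous (fun p : C(unitInterval, ℂ) ×
      (K × unitInterval × unitInterval × unitInterval) => p.1 p.2.2.2.1) := by fun_prop
  have c3 : Continuous (fun p : C(unitInterval, ℂ) ×
      (K × unitInterval × unitInterval × unitInterval) => p.1 p.2.2.2.2) := by fun_prop
  have c0 : Continuous (fun p : C(unitInterval, ℂ) ×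
      (K × unitInterval × unitInterval × unitInterval) => (p.2.1 : ℂ)) := by fun_prop
  refine IsClosed.inter ?_ (IsClosed.inter ?_ (IsClosed.inter ?_ (IsClosed.inter ?_ ?_)))
  · exact isClosed_le (by fun_prop) (by fun_prop)
  · exact isClosed_le (by fun_prop) (by fun_prop)
  · exact isClosed_le (c1.dist c0) continuous_const
  · exact isClosed_le (c3.dist c0) continuous_const
  · exact isClosed_le continuous_const ((c2.dist c0).add continuous_const)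

/-- Upper semicontinuity. -/
theorem isOpen_DD_sub {η ε : ℝ} {B O : Set ℂ} (hB : IsCompact B) (hO : IsOpen O) :
    IsOpen {f : C(unitInterval, ℂ) | DD η ε B f ⊆ O} := by
  have hK : IsCompact (B \ O) := hB.diff hO
  have : CompactSpace ↥(B \ O) := isCompact_iff_compactSpace.1 hK
  have h1 := closed_cond η ε (K := B \ O)
  have h2 := isClosedMap_fst_of_compactSpace _ h1
  have h3 : {f : C(unitInterval, ℂ) | DD η ε B f ⊆ O}ᶜ = Prod.fst ''
      {p : C(unitInterval, ℂ) × (↥(B \ O) × unitInterval × unitInterval × unitInterval) |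
      p.2.2.1 ≤ p.2.2.2.1 ∧ p.2.2.2.1 ≤ p.2.2.2.2 ∧ dist (p.1 p.2.2.1) (p.2.1 : ℂ) ≤ ε ∧
      dist (p.1 p.2.2.2.2) (p.2.1 : ℂ) ≤ ε ∧ η ≤ dist (p.1 p.2.2.2.1) (p.2.1 : ℂ) + ε} := by
    ext f
    simp only [mem_compl_iff, mem_ofPred_eq, not_subset, mem_image, Prod.exists]
    constructor
    · rintro ⟨z, ⟨hz, s, u, t, hh⟩, hzO⟩
      exact ⟨f, ⟨z, hz, hzO⟩, s, u, t, hh, rfl⟩
    · rintro ⟨g, ⟨z, hz, hzO⟩, s, u, t, hh, rfl⟩
      exact ⟨z, ⟨hz, s, u, t, hh⟩, hzO⟩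
  rw [← isClosed_compl_iff, h3]
  exact h2

theorem isClosed_good_DD {t δ c η ε : ℝ} {B : Set ℂ} (hB : IsCompact B) :
    IsClosed {f : C(unitInterval, ℂ) | Good t δ c (DD η ε B f)} := by
  have h : {f : C(unitInterval, ℂ) | Good t δ c (DD η ε B f)} =
      ⋂ s : Finset (ℂ × ℝ), {f : C(unitInterval, ℂ) | (∀ p ∈ s, δ ≤ p.2) →
        DD η ε B f ⊆ ⋃ p ∈ s, ball p.1 p.2 → c ≤ ∑ p ∈ s, p.2 ^ t} := by
    ext K; simp [Good]
  rw [h]
  apply isClosed_iInter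
  intro s
  by_cases h1 : (∀ p ∈ s, δ ≤ p.2) ∧ ¬ c ≤ ∑ p ∈ s, p.2 ^ t
  · have h2 : {f : C(unitInterval, ℂ) | (∀ p ∈ s, δ ≤ p.2) →
        DD η ε B f ⊆ ⋃ p ∈ s, ball p.1 p.2 → c ≤ ∑ p ∈ s, p.2 ^ t} =
        {f : C(unitInterval, ℂ) | DD η ε B f ⊆ ⋃ p ∈ s, ball p.1 p.2}ᶜ := by
      ext K
      simp only [Set.mem_ofPred_eq, Set.mem_compl_iff]
      constructor
      · intro h3 h4; exact h1.2 (h3 h1.1 h4)
      · intro h3 _ h4; exact absurd h4 h3
    rw [h2]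
    exact (isOpen_DD_sub hB (isOpen_biUnion fun p _ => isOpen_ball)).isClosed_compl
  · have h2 : {f : C(unitInterval, ℂ) | (∀ p ∈ s, δ ≤ p.2) →
        DD η ε B f ⊆ ⋃ p ∈ s, ball p.1 p.2 → c ≤ ∑ p ∈ s, p.2 ^ t} = univ := by
      ext K
      simp only [Set.mem_ofPred_eq, Set.mem_univ, iff_true]
      intro h3 _
      by_contra h4
      exact h1 ⟨h3, h4⟩
    rw [h2]; exact isClosed_univ

theorem isCompact_DD {η ε : ℝ} {B : Set ℂ} (hB : IsCompact B) (f : C(unitInterval, ℂ)) :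
    IsCompact (DD η ε B f) := by
  have : CompactSpace ↥B := isCompact_iff_compactSpace.1 hB
  have h1 := closed_cond η ε (K := B)
  have hc : Continuous (fun p : ↥B × unitInterval × unitInterval × unitInterval => (f, p)) := by
    fun_prop
  have h2 := (h1.preimage hc).isCompact
  have h3 : DD η ε B f = (fun p : ↥B × unitInterval × unitInterval × unitInterval => (p.1 : ℂ)) ''
      ((fun p : ↥B × unitInterval × unitInterval × unitInterval => (f, p)) ⁻¹'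
      {p : C(unitInterval, ℂ) × (↥B × unitInterval × unitInterval × unitInterval) |
      p.2.2.1 ≤ p.2.2.2.1 ∧ p.2.2.2.1 ≤ p.2.2.2.2 ∧ dist (p.1 p.2.2.1) (p.2.1 : ℂ) ≤ ε ∧
      dist (p.1 p.2.2.2.2) (p.2.1 : ℂ) ≤ ε ∧ η ≤ dist (p.1 p.2.2.2.1) (p.2.1 : ℂ) + ε}) := by
    ext z
    simp only [mem_image, mem_preimage, mem_ofPred_eq, Prod.exists]
    constructor
    · rintro ⟨hz, s, u, t, hh⟩
      exact ⟨⟨z, hz⟩, s, u, t, hh, rfl⟩
    · rintro ⟨⟨z, hz⟩, s, u, t, hh, rfl⟩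
      exact ⟨hz, s, u, t, hh⟩
  rw [h3]
  exact h2.image (by fun_prop)

/-- Passing to `ε = 0`. -/
theorem good_zero {t δ c η : ℝ} {B : Set ℂ} (hB : IsCompact B) (f : C(unitInterval, ℂ))
    (h : ∀ n : ℕ, Good t δ c (DD η (1 / ((n : ℝ) + 1)) B f)) : Good t δ c (DD η 0 B f) := by
  intro s hs hcov
  set O : Set ℂ := ⋃ p ∈ s, ball p.1 p.2 with hOdef
  have hO : IsOpen O := isOpen_biUnion fun p _ => isOpen_ball
  by_contra hcon
  -- all approximations stick out of `O`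
  have hne : ∀ n : ℕ, (DD η (1 / ((n : ℝ) + 1)) (B \ O) f).Nonempty := by
    intro n
    by_contra hemp
    apply hcon
    apply h n s hs
    rintro z ⟨hz, s', u, t', hh⟩
    by_contra hzO
    exact hemp ⟨z, ⟨hz, hzO⟩, s', u, t', hh⟩
  have hK : IsCompact (B \ O) := hB.diff hO
  have : CompactSpace ↥(B \ O) := isCompact_iff_compactSpace.1 hK
  have hc : Continuous (fun p : ↥(B \ O) × unitInterval × unitInterval × unitInterval =>
      (f, p)) := by fun_prop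
  let A : ℕ → Set (↥(B \ O) × unitInterval × unitInterval × unitInterval) := fun n =>
    (fun p => (f, p)) ⁻¹'
      {p : C(unitInterval, ℂ) × (↥(B \ O) × unitInterval × unitInterval × unitInterval) |
      p.2.2.1 ≤ p.2.2.2.1 ∧ p.2.2.2.1 ≤ p.2.2.2.2 ∧
      dist (p.1 p.2.2.1) (p.2.1 : ℂ) ≤ 1 / ((n : ℝ) + 1) ∧
      dist (p.1 p.2.2.2.2) (p.2.1 : ℂ) ≤ 1 / ((n : ℝ) + 1) ∧
      η ≤ dist (p.1 p.2.2.2.1) (p.2.1 : ℂ) + 1 / ((n : ℝ) + 1)}
  have hAcl : ∀ n, IsClosed (A n) := fun n => (closed_cond η _).preimage hc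
  have hle : ∀ n : ℕ, 1 / (((n + 1 : ℕ) : ℝ) + 1) ≤ 1 / ((n : ℝ) + 1) := fun n =>
    Nat.one_div_le_one_div (Nat.le_succ n)
  have hAanti : ∀ n, A (n + 1) ⊆ A n := by
    rintro n p ⟨h1, h2, h3, h4, h5⟩
    exact ⟨h1, h2, h3.trans (hle n), h4.trans (hle n), h5.trans (by linarith [hle n])⟩
  have hAne : ∀ n, (A n).Nonempty := by
    intro n
    obtain ⟨z, hz, s', u, t', hh⟩ := hne n
    exact ⟨(⟨z, hz⟩, s', u, t'), hh⟩
  obtain ⟨p, hp⟩ := IsCompact.nonempty_iInter_of_sequence_nonempty_isCompact_isClosed A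
    hAanti hAne (hAcl 0).isCompact hAcl
  rw [mem_iInter] at hp
  have hlim : Tendsto (fun n : ℕ => 1 / ((n : ℝ) + 1)) atTop (𝓝 0) :=
    tendsto_one_div_add_atTop_nhds_zero_nat
  have hz : (p.1 : ℂ) ∈ DD η 0 B f := by
    refine ⟨p.1.2.1, p.2.1, p.2.2.1, p.2.2.2, (hp 0).1, (hp 0).2.1, ?_, ?_, ?_⟩
    · exact ge_of_tendsto' hlim fun n => (hp n).2.2.1
    · exact ge_of_tendsto' hlim fun n => (hp n).2.2.2.1
    · exact ge_of_tendsto' ((tendsto_const_nhds).add hlim) fun n => (hp n).2.2.2.2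
  exact p.1.2.2 (hcov hz)

end Pool.Agent.W174.DP
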