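import Pool.Agent.W92.DP.Defs
import Pool.Agent.W174.DP.Closed
import Pool.Agent.H984R4.NP.ModelLem
import Pool.Agent.H984R4.NP.PL
import Pool.Agent.H973R2.Arm1

/-!
Lower bound for the dimension of the double points of the limits.
-/

set_option autoImplicit false

namespace Pool.Agent.W174.DP

open H974 H12S Finset H389NS H984P H984N MeasureTheory Filter Topology
open Pool.Agent.W92.DP Pool.Agent.H389R2.Dim
open scoped ENNReal NNReal

/-- Abstract passage to the limit. -/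
theorem ae_dim (R : Rect) (δ : ℕ → ℝ) (hδ : ∀ i, 0 < δ i) (hlim : Tendsto δ atTop (𝓝 0))
    (μ : ProbabilityMeasure X) (hμ : Tendsto (fun i => R.law (δ i)) atTop (𝓝 μ)) {t : ℝ}
    (ht : 0 < t) (T : C(unitInterval, ℂ) → Set ℂ)
    (h : ∀ ε : ℝ≥0∞, 0 < ε → ∃ (c η : ℝ) (B : Set ℂ), 0 < c ∧ IsCompact B ∧
      (∀ f, DD η 0 B f ⊆ T f) ∧ ∀ ε' : ℝ, 0 < ε' → ∃ δ0 : ℝ, 0 < δ0 ∧ ∀ d : ℝ, 0 < d → d ≤ δ0 →
        ENNReal.ofReal (R.prob d (fun F => ¬ Good t ε' c (DD η ε' B (R.curve d F)))) ≤ ε) :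
    ∀ᵐ p ∂(μ : Measure X), ENNReal.ofReal t ≤ dimH (T p.1) := by
  rw [ae_iff, ← nonpos_iff_eq_zero]
  apply ENNReal.le_of_forall_pos_le_add
  intro ε hε _
  obtain ⟨c, η, B, hc, hB, hT, h1⟩ := h ε (by exact_mod_cast hε)
  have hopen : ∀ ε' : ℝ, IsOpen {p : X | ¬ Good t ε' c (DD η ε' B p.1)} := by
    intro ε'
    have h2 := ((isClosed_good_DD (t := t) (δ := ε') (c := c) (η := η) (ε := ε') hB).preimage
      (continuous_fst (X := C(unitInterval, ℂ)) (Y := ℝ))).isOpen_compl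
    exact h2
  have h2 : ∀ ε' : ℝ, 0 < ε' →
      (μ : Measure X) {p : X | ¬ Good t ε' c (DD η ε' B p.1)} ≤ ε := by
    intro ε' hε'
    obtain ⟨δ0, hδ0, h3⟩ := h1 ε' hε'
    refine (ProbabilityMeasure.le_liminf_measure_open_of_tendsto hμ (hopen ε')).trans ?_
    have h4 : ∀ᶠ i in atTop, (R.law (δ i) : Measure X)
        {p : X | ¬ Good t ε' c (DD η ε' B p.1)} ≤ ε := by
      filter_upwards [hlim.eventually (ge_mem_nhds hδ0)] with i hi
      rw [R.law_apply (δ i) (hopen ε').measurableSet]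
      exact h3 (δ i) (hδ i) hi
    exact liminf_le_of_frequently_le h4.frequently
  set Bd : ℕ → Set X := fun n =>
    {p : X | ¬ Good t (1 / ((n : ℝ) + 1)) c (DD η (1 / ((n : ℝ) + 1)) B p.1)} with hBd
  have hmono : Monotone Bd := by
    intro n n' hnn p hp hG
    apply hp
    have h3 := hG.anti (Nat.one_div_le_one_div (α := ℝ) hnn)
    exact h3.mono (DD_mono (Nat.one_div_le_one_div hnn) B p.1)
  have h3 : {p : X | ¬ ENNReal.ofReal t ≤ dimH (T p.1)} ⊆ ⋃ n : ℕ, Bd n := by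
    intro p hp
    by_contra hcon
    simp only [hBd, Set.mem_iUnion, Set.mem_ofPred_eq, not_exists, not_not] at hcon
    apply hp
    have h4 : ∀ δ' : ℝ, 0 < δ' → Good t δ' c (DD η 0 B p.1) := by
      intro δ' hδ'
      apply good_zero hB
      intro n
      obtain ⟨m, hm⟩ := exists_nat_one_div_lt hδ'
      have h5 := hcon (max n m)
      have h6 : (1 : ℝ) / (((max n m : ℕ) : ℝ) + 1) ≤ 1 / ((n : ℝ) + 1) :=
        Nat.one_div_le_one_div (le_max_left _ _)
      have h7 : (1 : ℝ) / (((max n m : ℕ) : ℝ) + 1) ≤ 1 / ((m : ℝ) + 1) :=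
        Nat.one_div_le_one_div (le_max_right _ _)
      exact (h5.mono (DD_mono h6 B p.1)).anti (h7.trans hm.le)
    exact (le_dimH_of_good ht hc (isCompact_DD hB p.1) h4).trans (dimH_mono (hT p.1))
  refine le_trans (measure_mono h3) ?_
  rw [zero_add, hmono.measure_iUnion]
  exact iSup_le fun n => h2 _ (by positivity)

/-- The curve at the nodes. -/
theorem pl_node {N : ℕ} (hN : 0 < N) (p : ℕ → ℂ) {k : ℕ} (hk : k ≤ N) (s : unitInterval)
    (hs : (s : ℝ) = k / N) : pl N p s = p k := by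
  have hN' : (0 : ℝ) < N := by exact_mod_cast hN
  have hsN : (s : ℝ) * N = k := by rw [hs]; field_simp
  rcases lt_or_eq_of_le hk with h | h
  · rw [pl_seg h hsN.ge (by rw [hsN]; linarith), hsN]
    simp
  · have : s = 1 := by
      apply Subtype.ext
      rw [hs, h, div_self hN'.ne']
      rfl
    rw [this, pl_one, h]

/-- The point of the plane of a vertex. -/
noncomputable def pv (d : ℝ) (v : Vtx) : ℂ := ⟨d * v.1, d * (v.2 + 1)⟩

theorem dist_pos_pv {d : ℝ} (hd : 0 ≤ d) (σ : St) : dist (pos d σ) (pv d σ.1) ≤ d / 2 := by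
  have h1 : |(pos d σ).re - (pv d σ.1).re| ≤ d / 4 := by
    rw [ML.pos_re]
    have e : d * ((σ.1.1 : ℝ) + ML.qx σ.2) - (pv d σ.1).re = d * ML.qx σ.2 := by
      unfold pv; simp only; ring
    rw [e, abs_mul, abs_of_nonneg hd]
    have := ML.qx_le σ.2
    nlinarith
  have h2 : |(pos d σ).im - (pv d σ.1).im| ≤ d / 4 := by
    rw [ML.pos_im]
    have e : d * ((σ.1.2 : ℝ) + 1 + ML.qy σ.2) - (pv d σ.1).im = d * ML.qy σ.2 := by
      unfold pv; simp only; ring
    rw [e, abs_mul, abs_of_nonneg hd]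
    have := ML.qy_le σ.2
    nlinarith
  exact (ML.dist_le_of h1 h2).trans (by linarith)

theorem pv_dist {d : ℝ} (hd : 0 < d) (v w : Vtx) :
    d * ((sd v w : ℤ) : ℝ) ≤ dist (pv d v) (pv d w) := by
  rw [ML.sd_cast]
  have e1 : |(pv d v).re - (pv d w).re| = d * |((v.1 - w.1 : ℤ) : ℝ)| := by
    unfold pv; simp only
    rw [← mul_sub, abs_mul, abs_of_pos hd]; push_cast; rfl
  have e2 : |(pv d v).im - (pv d w).im| = d * |((v.2 - w.2 : ℤ) : ℝ)| := by
    unfold pv; simp only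
    rw [← mul_sub, abs_mul, abs_of_pos hd]; push_cast; congr 2; ring
  rcases max_choice |((v.1 - w.1 : ℤ) : ℝ)| |((v.2 - w.2 : ℤ) : ℝ)| with h | h
  · rw [h, ← e1]; exact ML.le_dist_re _ _
  · rw [h, ← e2]; exact ML.le_dist_im _ _

theorem pv_inj {d : ℝ} (hd : 0 < d) : Function.Injective (pv d) := by
  intro v w h
  have h1 := congrArg Complex.re h
  have h2 := congrArg Complex.im h
  simp only [pv] at h1 h2
  have h3 : (v.1 : ℝ) = w.1 := mul_left_cancel₀ hd.ne' h1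
  have h4 : (v.2 : ℝ) + 1 = w.2 + 1 := mul_left_cancel₀ hd.ne' h2
  have h5 : (v.2 : ℝ) = w.2 := by linarith
  exact Prod.ext (by exact_mod_cast h3) (by exact_mod_cast h5)

/-- On the good event the set of approximate double points is good. -/
theorem good_of_Gd4 (hdet : St_det) (R : Rect) {d : ℝ} (hd : 0 < d) (hok : (R.dm d).Ok)
    {L m : ℕ} (hL : 2 ≤ L) (hm : 64 ≤ m) (h1 : (R.dm d).l < -(27 * (L * m : ℕ)))
    (h2 : 27 * (L * m : ℕ) < (R.dm d).r) (h3 : 39 * (L * m : ℕ) < (R.dm d).h)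
    {F : Finset Edg} (hF : F ⊆ (R.dm d).edges) {c0 E0 t : ℝ} (hc0 : 0 < c0) (hE0 : 0 < E0)
    (ht : 0 < t) (hG : Gd4 c0 E0 t L m F) {ε η : ℝ} (hε : d ≤ ε)
    (hη : η ≤ d * (15 * (L * m : ℕ))) {B : Set ℂ}
    (hB : ∀ v ∈ core4 (L * m : ℕ), pv d v ∈ B) :
    Good t ε (2 ^ (-t) / (E0 / c0 ^ 2 * (d * m) ^ (-t))) (DD η ε B (R.curve d F)) := by
  classical
  obtain ⟨⟨hGO, hGD⟩, hcard, hEn⟩ := hG
  have hm0 : (0 : ℝ) < (m : ℝ) := by exact_mod_cast (by omega : 0 < m)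
  have hE : 0 < E0 / c0 ^ 2 * (d * m) ^ (-t) := by positivity
  have hcpos : (0 : ℝ) < ((V4 L m F).card : ℝ) :=
    lt_of_lt_of_le (by positivity) hcard
  have hne : (V4 L m F).Nonempty := by
    rw [← Finset.card_pos]; exact_mod_cast hcpos
  have hε0 : 0 < ε := lt_of_lt_of_le hd hε
  refine good_of_energy hε0 ht.le hE
    ((V4 L m F).image (pv d)) (hne.image _) ?_ ?_
  · intro z hz
    rw [Finset.mem_coe, Finset.mem_image] at hz
    obtain ⟨v, hv, rfl⟩ := hz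
    unfold V4 at hv
    rw [Finset.mem_filter] at hv
    obtain ⟨i, j, l, hij, hjl, hl, hi, hlv, hsd⟩ :=
      hdet (R.dm d) F hok hF L m hL hm h1 h2 h3 hGO hGD v hv.1 hv.2
    set N := (R.dm d).len F with hN
    have hN0 : 0 < N := by omega
    have hNR : (0 : ℝ) < N := by exact_mod_cast hN0
    have hnode : ∀ k : ℕ, k ≤ N → (k : ℝ) / N ∈ unitInterval := by
      intro k hk
      refine ⟨by positivity, ?_⟩
      rw [div_le_one hNR]
      exact_mod_cast hk
    have hcv : ∀ (k : ℕ) (hk : k ≤ N), R.curve d F ⟨(k : ℝ) / N, hnode k hk⟩ =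
        pos d ((R.dm d).walk F k) := by
      intro k hk
      unfold Rect.curve
      exact pl_node hN0 _ hk _ rfl
    have hdi : dist (pos d ((R.dm d).walk F i)) (pv d v) ≤ d / 2 := by
      rw [← hi]; exact dist_pos_pv hd.le _
    have hdl : dist (pos d ((R.dm d).walk F l)) (pv d v) ≤ d / 2 := by
      rw [← hlv]; exact dist_pos_pv hd.le _
    refine ⟨hB v hv.1, ⟨(i : ℝ) / N, hnode i (by omega)⟩, ⟨(j : ℝ) / N, hnode j (by omega)⟩,
      ⟨(l : ℝ) / N, hnode l hl⟩, ?_, ?_, ?_, ?_, ?_⟩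
    · rw [Subtype.mk_le_mk]
      exact div_le_div_of_nonneg_right (by exact_mod_cast hij.le) hNR.le
    · rw [Subtype.mk_le_mk]
      exact div_le_div_of_nonneg_right (by exact_mod_cast hjl.le) hNR.le
    · rw [hcv i (by omega)]
      linarith
    · rw [hcv l hl]
      linarith
    · rw [hcv j (by omega)]
      have h5 := le_dist_pos hd.le ((R.dm d).walk F j) ((R.dm d).walk F i)
      rw [hi] at h5
      have h6 := dist_triangle (pos d ((R.dm d).walk F j)) (pv d v) (pos d ((R.dm d).walk F i))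
      rw [dist_comm (pv d v)] at h6
      have h7 : ((15 * (L * m : ℕ) : ℤ) : ℝ) ≤ ((sd ((R.dm d).walk F j).1 v : ℤ) : ℝ) := by
        exact_mod_cast hsd
      have h8 : d * (15 * (L * m : ℕ) : ℝ) ≤ d * ((sd ((R.dm d).walk F j).1 v : ℤ) : ℝ) := by
        apply mul_le_mul_of_nonneg_left _ hd.le
        push_cast at h7 ⊢
        exact h7
      nlinarith
  · rw [Finset.sum_image (fun a _ b _ hab => pv_inj hd hab),
      Finset.card_image_of_injective _ (pv_inj hd)]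
    have e1 : ∀ v ∈ V4 L m F, ∑ y ∈ (V4 L m F).image (pv d),
        (max (dist (pv d v) y) ε) ^ (-t) ≤
        ∑ w ∈ V4 L m F, d ^ (-t) * ((max (sd v w) 1 : ℤ) : ℝ) ^ (-t) := by
      intro v _
      rw [Finset.sum_image (fun a _ b _ hab => pv_inj hd hab)]
      refine Finset.sum_le_sum fun w _ => ?_
      have hm : (1 : ℝ) ≤ ((max (sd v w) 1 : ℤ) : ℝ) := by
        exact_mod_cast le_max_right (sd v w) 1
      rw [← Real.mul_rpow hd.le (by linarith)]
      refine Real.rpow_le_rpow_of_nonpos (by positivity) ?_ (by linarith)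
      have h6 := pv_dist hd v w
      rcases max_cases (sd v w) 1 with h | h
      · rw [h.1]; exact h6.trans (le_max_left _ _)
      · rw [h.1]; push_cast; rw [mul_one]; exact hε.trans (le_max_right _ _)
    refine (Finset.sum_le_sum e1).trans ?_
    have e2 : ∑ v ∈ V4 L m F, ∑ w ∈ V4 L m F, d ^ (-t) * ((max (sd v w) 1 : ℤ) : ℝ) ^ (-t)
        = d ^ (-t) * En4 t L m F := by
      unfold En4
      rw [Finset.mul_sum]
      refine Finset.sum_congr rfl fun v _ => ?_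
      rw [Finset.mul_sum]
    rw [e2]
    have e3 : (c0 * (m : ℝ) ^ (3/4 : ℝ)) ^ 2 ≤ ((V4 L m F).card : ℝ) ^ 2 :=
      pow_le_pow_left₀ (by positivity) hcard 2
    have e4 : (c0 * (m : ℝ) ^ (3/4 : ℝ)) ^ 2 = c0 ^ 2 * (m : ℝ) ^ (3/2 : ℝ) := by
      rw [mul_pow, ← Real.rpow_natCast ((m : ℝ) ^ (3/4 : ℝ)) 2, ← Real.rpow_mul hm0.le]
      norm_num
    rw [e4] at e3
    calc d ^ (-t) * En4 t L m F ≤ d ^ (-t) * (E0 * (m : ℝ) ^ (3/2 - t)) :=
          mul_le_mul_of_nonneg_left hEn (by positivity)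
      _ = E0 / c0 ^ 2 * (d * m) ^ (-t) * (c0 ^ 2 * (m : ℝ) ^ (3/2 : ℝ)) := by
          rw [Real.mul_rpow hd.le hm0.le, sub_eq_add_neg, Real.rpow_add hm0]
          field_simp
      _ ≤ E0 / c0 ^ 2 * (d * m) ^ (-t) * ((V4 L m F).card : ℝ) ^ 2 :=
          mul_le_mul_of_nonneg_left e3 hE.le

theorem mem_HA {U : ℤ} {y : Vtx} : y ∈ HA U ↔
    ((-(27 * U) ≤ y.1 ∧ y.1 ≤ 27 * U) ∧ (0 ≤ y.2 ∧ y.2 ≤ 39 * U)) ∧
      (y.1 ≤ -U ∨ U ≤ y.1 ∨ U ≤ y.2) := by
  unfold HA
  rw [Finset.mem_filter, Finset.mem_product, Finset.mem_Icc, Finset.mem_Icc]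

theorem mem_core4 {U : ℤ} {y : Vtx} : y ∈ core4 U ↔
    (-(10 * U) ≤ y.1 ∧ y.1 ≤ -(8 * U)) ∧ (17 * U ≤ y.2 ∧ y.2 ≤ 19 * U) := by
  unfold core4
  rw [Finset.mem_product, Finset.mem_Icc, Finset.mem_Icc]

theorem SA_sub {D : Dm} {U : ℤ} (h1 : D.l < -(27 * U)) (h2 : 27 * U < D.r) (h3 : 39 * U < D.h) :
    SA U ⊆ D.edges := by
  intro e he
  unfold SA at he
  rw [H973.mem_ES, mem_HA, mem_HA] at he
  unfold Dm.edges
  apply H973.mem_RE_of_ends
  · unfold inR; omega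
  · unfold inR; omega

theorem limL : St_limL := by
  intro hgood hind hdet R δ hδ hlim μ hμ t ht ht1 ρ hρ
  obtain ⟨L, M, c0, E0, p, hL, hM, hc0, hE0, hp, hp1, hG⟩ := hgood t ht ht1
  obtain ⟨κs, S, δs, -, -, hδs, -, hshape⟩ := R.shape
  refine ae_dim R δ hδ hlim μ hμ ht
    (fun f => {z : ℂ | z ∈ R.D ∧ dist z 0 < ρ ∧ ∃ η : ℝ, 0 < η ∧ z ∈ DPt η f}) ?_
  intro ε hε
  -- the number of scales
  obtain ⟨J, hJ⟩ : ∃ J : ℕ, ENNReal.ofReal ((1 - p) ^ J) ≤ ε := by
    have h1 : Tendsto (fun J : ℕ => ENNReal.ofReal ((1 - p) ^ J)) atTop (𝓝 0) := by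
      have h2 : Tendsto (fun J : ℕ => (1 - p) ^ J) atTop (𝓝 0) :=
        tendsto_pow_atTop_nhds_zero_of_lt_one (by linarith) (by linarith)
      have h3 := ENNReal.tendsto_ofReal h2
      rwa [ENNReal.ofReal_zero] at h3
    exact ((h1.eventually_lt_const hε).exists).imp fun J hJ => hJ.le
  have hA := R.hA
  have hBB := R.hB
  have hH := R.hH
  obtain ⟨κ, hκ⟩ : ∃ κ : ℝ, κ = min (min R.A R.B) (min R.H ρ) / 50 := ⟨_, rfl⟩
  have hκ0 : 0 < κ := by
    rw [hκ]
    exact div_pos (lt_min (lt_min hA hBB) (lt_min hH hρ)) (by norm_num)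
  have hκA : 50 * κ ≤ R.A := by
    have : min (min R.A R.B) (min R.H ρ) ≤ R.A := (min_le_left _ _).trans (min_le_left _ _)
    rw [hκ]; linarith
  have hκB : 50 * κ ≤ R.B := by
    have : min (min R.A R.B) (min R.H ρ) ≤ R.B := (min_le_left _ _).trans (min_le_right _ _)
    rw [hκ]; linarith
  have hκH : 50 * κ ≤ R.H := by
    have : min (min R.A R.B) (min R.H ρ) ≤ R.H := (min_le_right _ _).trans (min_le_left _ _)
    rw [hκ]; linarith
  have hκρ : 50 * κ ≤ ρ := by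
    have : min (min R.A R.B) (min R.H ρ) ≤ ρ := (min_le_right _ _).trans (min_le_right _ _)
    rw [hκ]; linarith
  have hL0 : (0 : ℝ) < L := by exact_mod_cast (by omega : 0 < L)
  have hM0 : (0 : ℝ) < M := by exact_mod_cast (by omega : 0 < M)
  obtain ⟨r0, hr0⟩ : ∃ r0 : ℝ, r0 = κ / (L * M * 64 ^ J) := ⟨_, rfl⟩
  have hr00 : 0 < r0 := by rw [hr0]; positivity
  have hr0κ : L * M * 64 ^ J * r0 = κ := by rw [hr0]; field_simp
  have hLM0 : 0 < L * M * r0 := by positivity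
  have hLMκ : L * M * r0 ≤ κ := by
    rw [← hr0κ]
    have : (1 : ℝ) ≤ 64 ^ J := one_le_pow₀ (by norm_num)
    nlinarith
  refine ⟨2 ^ (-t) / (E0 / c0 ^ 2 * (M * r0 / 2) ^ (-t)), L * M * r0,
    Set.Icc (-(10 * κ)) 0 ×ℂ Set.Icc (L * M * r0) (20 * κ), by positivity,
    isCompact_Icc.reProdIm isCompact_Icc, ?_, ?_⟩
  · rintro f z ⟨hz, s, u, t', h1, h2, h3, h4, h5⟩
    rw [Complex.mem_reProdIm, Set.mem_Icc, Set.mem_Icc] at hz
    refine ⟨?_, ?_, L * M * r0, hLM0, s, u, t', h1, h2, dist_le_zero.1 h3, dist_le_zero.1 h4, ?_⟩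
    · unfold Rect.D
      simp only [Set.mem_ofPred_eq]
      refine ⟨by linarith, by linarith, by linarith, by linarith⟩
    · rw [dist_zero_right]
      have h6 := Complex.norm_le_abs_re_add_abs_im z
      have h7 : |z.re| ≤ 10 * κ := by rw [abs_le]; constructor <;> linarith
      have h8 : |z.im| ≤ 20 * κ := by rw [abs_le]; constructor <;> linarith
      linarith
    · linarith
  intro ε' hε'
  refine ⟨min (min δs ε') (min (κ / 2) (r0 / 2)), lt_min (lt_min hδs hε')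
    (lt_min (by positivity) (by positivity)), fun d hd hd1 => ?_⟩
  have hdδ : d ≤ δs := hd1.trans ((min_le_left _ _).trans (min_le_left _ _))
  have hdε : d ≤ ε' := hd1.trans ((min_le_left _ _).trans (min_le_right _ _))
  have hdκ : d ≤ κ / 2 := hd1.trans ((min_le_right _ _).trans (min_le_left _ _))
  have hdr : d ≤ r0 / 2 := hd1.trans ((min_le_right _ _).trans (min_le_right _ _))
  have hok : (R.dm d).Ok := (hshape d hd hdδ).ok
  -- the unit
  obtain ⟨r, hr⟩ : ∃ r : ℕ, r = ⌊r0 / d⌋₊ := ⟨_, rfl⟩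
  have hrd1 : (r : ℝ) ≤ r0 / d := by rw [hr]; exact Nat.floor_le (by positivity)
  have hrd2 : r0 / d < r + 1 := by rw [hr]; exact Nat.lt_floor_add_one _
  have hrd3 : 2 ≤ r0 / d := by rw [le_div_iff₀ hd]; linarith
  have hr1 : 1 ≤ r := by
    have : (1 : ℝ) < r + 1 := by linarith
    have : (0 : ℝ) < r := by linarith
    exact_mod_cast this
  have hdr1 : d * r ≤ r0 := by
    rw [le_div_iff₀ hd] at hrd1; linarith
  have hdr2 : r0 / 2 ≤ d * r := by
    have h1 : (1 : ℝ) ≤ r := by exact_mod_cast hr1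
    have h2 : r0 / d ≤ 2 * r := by linarith
    rw [div_le_iff₀ hd] at h2
    linarith
  have hU : ∀ j < J, d * ((L * (M * (64 ^ j * r)) : ℕ) : ℝ) ≤ κ := by
    intro j hj
    have h2 : (64 : ℝ) ^ j ≤ 64 ^ J := pow_le_pow_right₀ (by norm_num) hj.le
    push_cast
    calc d * (L * (M * (64 ^ j * (r : ℝ)))) = L * M * 64 ^ j * (d * r) := by ring
      _ ≤ L * M * 64 ^ J * r0 := by
          apply mul_le_mul _ hdr1 (by positivity) (by positivity)
          apply mul_le_mul_of_nonneg_left h2 (by positivity)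
      _ = κ := hr0κ
  have hU2 : ∀ j : ℕ, L * M * r0 / 2 ≤ d * ((L * (M * (64 ^ j * r)) : ℕ) : ℝ) := by
    intro j
    have h2 : (1 : ℝ) ≤ 64 ^ j := one_le_pow₀ (by norm_num)
    push_cast
    calc L * M * r0 / 2 = L * M * 1 * (r0 / 2) := by ring
      _ ≤ L * M * 64 ^ j * (d * r) := by
          apply mul_le_mul _ hdr2 (by positivity) (by positivity)
          apply mul_le_mul_of_nonneg_left h2 (by positivity)
      _ = d * (L * (M * (64 ^ j * (r : ℝ)))) := by ring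
  have hgeo : ∀ j < J, (R.dm d).l < -(27 * ((L * (M * (64 ^ j * r)) : ℕ) : ℤ)) ∧
      27 * ((L * (M * (64 ^ j * r)) : ℕ) : ℤ) < (R.dm d).r ∧
      39 * ((L * (M * (64 ^ j * r)) : ℕ) : ℤ) < (R.dm d).h := by
    intro j hj
    obtain ⟨U, hUU⟩ : ∃ U : ℕ, U = L * (M * (64 ^ j * r)) := ⟨_, rfl⟩
    have h1 := hU j hj
    rw [← hUU] at h1 ⊢
    unfold Rect.dm
    simp only
    refine ⟨?_, ?_, ?_⟩
    · have h2 : (27 * (U : ℝ) + 1) < R.A / d := by
        rw [lt_div_iff₀ hd]; nlinarith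
      have h3 : (⌊-(R.A / d)⌋ : ℝ) ≤ -(R.A / d) := Int.floor_le _
      have h4 : ((⌊-(R.A / d)⌋ + 1 : ℤ) : ℝ) < ((-(27 * (U : ℤ)) : ℤ) : ℝ) := by
        push_cast; linarith
      exact_mod_cast h4
    · have h2 : (27 * (U : ℝ) + 1) < R.B / d := by
        rw [lt_div_iff₀ hd]; nlinarith
      have h3 : R.B / d ≤ (⌈R.B / d⌉ : ℝ) := Int.le_ceil _
      have h4 : ((27 * (U : ℤ) : ℤ) : ℝ) < ((⌈R.B / d⌉ - 1 : ℤ) : ℝ) := by
        push_cast; linarith
      exact_mod_cast h4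
    · have h2 : (39 * (U : ℝ) + 2) < R.H / d := by
        rw [lt_div_iff₀ hd]; nlinarith
      have h3 : R.H / d ≤ (⌈R.H / d⌉ : ℝ) := Int.le_ceil _
      have h4 : ((39 * (U : ℤ) : ℤ) : ℝ) < ((⌈R.H / d⌉ - 2 : ℤ) : ℝ) := by
        push_cast; linarith
      exact_mod_cast h4
  refine le_trans (ENNReal.ofReal_le_ofReal ?_) hJ
  have h64 : ∀ j : ℕ, 1 ≤ 64 ^ j * r := fun j =>
    Nat.one_le_iff_ne_zero.2 (Nat.mul_ne_zero (by positivity) (by omega))
  refine le_trans (Pr_mono (fun _ => ⟨by norm_num, by norm_num⟩) ?_)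
    (hind p c0 E0 t L M r hp1 hL hM hr1 hG J (R.dm d).edges
    (fun j hj => SA_sub (hgeo j hj).1 (hgeo j hj).2.1 (hgeo j hj).2.2))
  intro F hF hbad j hj hgd
  apply hbad
  have hMm : 64 ≤ M * (64 ^ j * r) := by
    have := h64 j
    nlinarith
  have hg := good_of_Gd4 hdet R hd hok hL hMm (hgeo j hj).1 (hgeo j hj).2.1 (hgeo j hj).2.2 hF
    hc0 hE0 ht hgd hdε (η := L * M * r0)
    (by have := hU2 j; nlinarith)
    (B := Set.Icc (-(10 * κ)) 0 ×ℂ Set.Icc (L * M * r0) (20 * κ)) (by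
      intro v hv
      rw [mem_core4] at hv
      have h1 := hU j hj
      have h2 := hU2 j
      obtain ⟨U, hUU⟩ : ∃ U : ℕ, U = L * (M * (64 ^ j * r)) := ⟨_, rfl⟩
      rw [← hUU] at h1 h2 hv
      have a1 : -(10 * (U : ℝ)) ≤ v.1 := by exact_mod_cast hv.1.1
      have a2 : (v.1 : ℝ) ≤ -(8 * (U : ℝ)) := by exact_mod_cast hv.1.2
      have a3 : 17 * (U : ℝ) ≤ v.2 := by exact_mod_cast hv.2.1
      have a4 : (v.2 : ℝ) ≤ 19 * (U : ℝ) := by exact_mod_cast hv.2.2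
      have b1 := mul_le_mul_of_nonneg_left a1 hd.le
      have b2 := mul_le_mul_of_nonneg_left a2 hd.le
      have b3 := mul_le_mul_of_nonneg_left a3 hd.le
      have b4 := mul_le_mul_of_nonneg_left a4 hd.le
      have b5 : 0 ≤ d * (U : ℝ) := by positivity
      rw [Complex.mem_reProdIm, Set.mem_Icc, Set.mem_Icc]
      unfold pv
      simp only
      refine ⟨⟨by nlinarith, by nlinarith⟩, by nlinarith, by nlinarith⟩)
  intro s' hs' hcov
  have h1 := hg s' hs' hcov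
  refine le_trans ?_ h1
  have h2 : M * r0 / 2 ≤ d * ((M * (64 ^ j * r) : ℕ) : ℝ) := by
    have h3 : (1 : ℝ) ≤ 64 ^ j := one_le_pow₀ (by norm_num)
    push_cast
    calc M * r0 / 2 = M * 1 * (r0 / 2) := by ring
      _ ≤ M * 64 ^ j * (d * r) := by
          apply mul_le_mul _ hdr2 (by positivity) (by positivity)
          apply mul_le_mul_of_nonneg_left h3 (by positivity)
      _ = d * (M * (64 ^ j * (r : ℝ))) := by ring
  have h3 : (d * ((M * (64 ^ j * r) : ℕ) : ℝ)) ^ (-t) ≤ (M * r0 / 2) ^ (-t) :=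
    Real.rpow_le_rpow_of_nonpos (by positivity) h2 (by linarith)
  have h4 : 0 < (d * ((M * (64 ^ j * r) : ℕ) : ℝ)) ^ (-t) := by
    apply Real.rpow_pos_of_pos
    have : 0 < M * r0 / 2 := by positivity
    linarith
  apply div_le_div_of_nonneg_left (by positivity) (by positivity)
  apply mul_le_mul_of_nonneg_left h3 (by positivity)

end Pool.Agent.W174.DP
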