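import Pool.Agent.W92.DPH.Basic
import Pool.Agent.W174.DP.LimL

/-!
Half-plane: lower bound for the dimension of the double points of the limits.
-/

set_option autoImplicit false

namespace Pool.Agent.W174.DP

open H974 H12S Finset H389NS H984P MeasureTheory Filter Topology
open Pool.Agent.W92.DP Pool.Agent.W92.DPH Pool.Agent.H389R2.Dim
open scoped ENNReal NNReal

/-- Abstract passage to the limit. -/
theorem ae_dimH (φ : ℕ → ℕ) (hφ : Tendsto φ atTop atTop)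
    (μ : ProbabilityMeasure C(unitInterval, ℂ))
    (hμ : Tendsto (fun i => H984H.lawH (φ i)) atTop (𝓝 μ)) {t : ℝ}
    (ht : 0 < t) (T : C(unitInterval, ℂ) → Set ℂ)
    (h : ∀ ε : ℝ, 0 < ε → ∃ (c η : ℝ) (B : Set ℂ), 0 < c ∧ IsCompact B ∧
      (∀ f, DD η 0 B f ⊆ T f) ∧ ∀ ε' : ℝ, 0 < ε' → ∃ n0 : ℕ, ∀ n : ℕ, n0 ≤ n →
        H984H.perc.real {ω | ¬ Good t ε' c (DD η ε' B (H984H.curve n ω))} ≤ ε) :
    ∀ᵐ f : C(unitInterval, ℂ) ∂(μ : Measure C(unitInterval, ℂ)),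
      ENNReal.ofReal t ≤ dimH (T f) := by
  rw [ae_iff, ← nonpos_iff_eq_zero]
  apply ENNReal.le_of_forall_pos_le_add
  intro ε hε _
  obtain ⟨c, η, B, hc, hB, hT, h1⟩ := h ε (by exact_mod_cast hε)
  have hopen : ∀ ε' : ℝ, IsOpen {f : C(unitInterval, ℂ) | ¬ Good t ε' c (DD η ε' B f)} := by
    intro ε'
    have h2 := (isClosed_good_DD (t := t) (δ := ε') (c := c) (η := η) (ε := ε') hB).isOpen_compl
    exact h2
  have h2 : ∀ ε' : ℝ, 0 < ε' →
      (μ : Measure C(unitInterval, ℂ))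
        {f : C(unitInterval, ℂ) | ¬ Good t ε' c (DD η ε' B f)} ≤ ε := by
    intro ε' hε'
    obtain ⟨n0, h3⟩ := h1 ε' hε'
    refine (ProbabilityMeasure.le_liminf_measure_open_of_tendsto hμ (hopen ε')).trans ?_
    have h4 : ∀ᶠ i in atTop, (H984H.lawH (φ i) : Measure C(unitInterval, ℂ))
        {f : C(unitInterval, ℂ) | ¬ Good t ε' c (DD η ε' B f)} ≤ ε := by
      filter_upwards [hφ.eventually_ge_atTop n0] with i hi
      rw [H984H.lawH_apply (φ i) (hopen ε').measurableSet]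
      refine (ENNReal.ofReal_le_ofReal (h3 (φ i) hi)).trans ?_
      rw [ENNReal.ofReal_coe_nnreal]
    exact liminf_le_of_frequently_le h4.frequently
  set Bd : ℕ → Set C(unitInterval, ℂ) := fun n =>
    {f : C(unitInterval, ℂ) | ¬ Good t (1 / ((n : ℝ) + 1)) c (DD η (1 / ((n : ℝ) + 1)) B f)}
    with hBd
  have hmono : Monotone Bd := by
    intro n n' hnn p hp hG
    apply hp
    have h3 := hG.anti (Nat.one_div_le_one_div (α := ℝ) hnn)
    exact h3.mono (DD_mono (Nat.one_div_le_one_div hnn) B p)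
  have h3 : {f : C(unitInterval, ℂ) | ¬ ENNReal.ofReal t ≤ dimH (T f)} ⊆ ⋃ n : ℕ, Bd n := by
    intro p hp
    by_contra hcon
    simp only [hBd, Set.mem_iUnion, Set.mem_ofPred_eq, not_exists, not_not] at hcon
    apply hp
    have h4 : ∀ δ' : ℝ, 0 < δ' → Good t δ' c (DD η 0 B p) := by
      intro δ' hδ'
      apply good_zero hB
      intro n
      obtain ⟨m, hm⟩ := exists_nat_one_div_lt hδ'
      have h5 := hcon (max n m)
      have h6 : (1 : ℝ) / (((max n m : ℕ) : ℝ) + 1) ≤ 1 / ((n : ℝ) + 1) :=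
        Nat.one_div_le_one_div (le_max_left _ _)
      have h7 : (1 : ℝ) / (((max n m : ℕ) : ℝ) + 1) ≤ 1 / ((m : ℝ) + 1) :=
        Nat.one_div_le_one_div (le_max_right _ _)
      exact (h5.mono (DD_mono h6 B p)).anti (h7.trans hm.le)
    exact (le_dimH_of_good ht hc (isCompact_DD hB p) h4).trans (dimH_mono (hT p))
  refine le_trans (measure_mono h3) ?_
  rw [zero_add, hmono.measure_iUnion]
  exact iSup_le fun n => h2 _ (by positivity)

/-- The point of the plane of a vertex. -/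
noncomputable def pq (d : ℝ) (v : Vtx) : ℂ := ⟨d * v.1, d * v.2⟩

theorem dist_gam_pq {d : ℝ} (hd : 0 ≤ d) (σ : St) :
    dist ((d : ℂ) * H984H.place σ) (pq d σ.1) ≤ d / 2 := by
  have e : (d : ℂ) * H984H.place σ - pq d σ.1 =
      (d : ℂ) * (H984H.place σ - ⟨(σ.1.1 : ℝ), (σ.1.2 : ℝ)⟩) := by
    apply Complex.ext
    · simp [pq]; ring
    · simp [pq]; ring
  rw [dist_eq_norm, e, norm_mul, Complex.norm_real, Real.norm_eq_abs, abs_of_nonneg hd]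
  have h1 : ‖H984H.place σ - ⟨(σ.1.1 : ℝ), (σ.1.2 : ℝ)⟩‖ ≤ 1 / 2 := by
    refine (Complex.norm_le_abs_re_add_abs_im _).trans ?_
    rw [Complex.sub_re, Complex.sub_im]
    simp only
    rw [H984H.Step_re, H984H.Step_im]
    norm_num
  nlinarith

theorem pq_dist {d : ℝ} (hd : 0 < d) (v w : Vtx) :
    d * ((H984N.sd v w : ℤ) : ℝ) ≤ dist (pq d v) (pq d w) := by
  rw [H984N.ML.sd_cast]
  have e1 : |(pq d v).re - (pq d w).re| = d * |((v.1 - w.1 : ℤ) : ℝ)| := by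
    unfold pq; simp only
    rw [← mul_sub, abs_mul, abs_of_pos hd]; push_cast; rfl
  have e2 : |(pq d v).im - (pq d w).im| = d * |((v.2 - w.2 : ℤ) : ℝ)| := by
    unfold pq; simp only
    rw [← mul_sub, abs_mul, abs_of_pos hd]; push_cast; rfl
  rcases max_choice |((v.1 - w.1 : ℤ) : ℝ)| |((v.2 - w.2 : ℤ) : ℝ)| with h | h
  · rw [h, ← e1]; exact H984N.ML.le_dist_re _ _
  · rw [h, ← e2]; exact H984N.ML.le_dist_im _ _

theorem pq_inj {d : ℝ} (hd : 0 < d) : Function.Injective (pq d) := by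
  intro v w h
  have h1 := congrArg Complex.re h
  have h2 := congrArg Complex.im h
  simp only [pq] at h1 h2
  have h3 : (v.1 : ℝ) = w.1 := mul_left_cancel₀ hd.ne' h1
  have h4 : (v.2 : ℝ) = w.2 := mul_left_cancel₀ hd.ne' h2
  exact Prod.ext (by exact_mod_cast h3) (by exact_mod_cast h4)

/-- The energy estimate gives a good set. -/
theorem good_of_En4 {d : ℝ} (hd : 0 < d) {L m : ℕ} (hm : 64 ≤ m)
    {F : Finset Edg} {c0 E0 t : ℝ} (hc0 : 0 < c0) (hE0 : 0 < E0)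
    (ht : 0 < t) (hcard : c0 * (m : ℝ) ^ (3/4 : ℝ) ≤ ((V4 L m F).card : ℝ))
    (hEn : En4 t L m F ≤ E0 * (m : ℝ) ^ (3/2 - t)) {ε : ℝ} (hε : d ≤ ε) {K : Set ℂ}
    (hK : ∀ v ∈ V4 L m F, pq d v ∈ K) :
    Good t ε (2 ^ (-t) / (E0 / c0 ^ 2 * (d * m) ^ (-t))) K := by
  classical
  have hm0 : (0 : ℝ) < (m : ℝ) := by exact_mod_cast (by omega : 0 < m)
  have hE : 0 < E0 / c0 ^ 2 * (d * m) ^ (-t) := by positivity
  have hcpos : (0 : ℝ) < ((V4 L m F).card : ℝ) :=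
    lt_of_lt_of_le (by positivity) hcard
  have hne : (V4 L m F).Nonempty := by
    rw [← Finset.card_pos]; exact_mod_cast hcpos
  have hε0 : 0 < ε := lt_of_lt_of_le hd hε
  refine good_of_energy hε0 ht.le hE
    ((V4 L m F).image (pq d)) (hne.image _) ?_ ?_
  · intro z hz
    rw [Finset.mem_coe, Finset.mem_image] at hz
    obtain ⟨v, hv, rfl⟩ := hz
    exact hK v hv
  · rw [Finset.sum_image (fun a _ b _ hab => pq_inj hd hab),
      Finset.card_image_of_injective _ (pq_inj hd)]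
    have e1 : ∀ v ∈ V4 L m F, ∑ y ∈ (V4 L m F).image (pq d),
        (max (dist (pq d v) y) ε) ^ (-t) ≤
        ∑ w ∈ V4 L m F, d ^ (-t) * ((max (H984N.sd v w) 1 : ℤ) : ℝ) ^ (-t) := by
      intro v _
      rw [Finset.sum_image (fun a _ b _ hab => pq_inj hd hab)]
      refine Finset.sum_le_sum fun w _ => ?_
      have hm : (1 : ℝ) ≤ ((max (H984N.sd v w) 1 : ℤ) : ℝ) := by
        exact_mod_cast le_max_right (H984N.sd v w) 1
      rw [← Real.mul_rpow hd.le (by linarith)]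
      refine Real.rpow_le_rpow_of_nonpos (by positivity) ?_ (by linarith)
      have h6 := pq_dist hd v w
      rcases max_cases (H984N.sd v w) 1 with h | h
      · rw [h.1]; exact h6.trans (le_max_left _ _)
      · rw [h.1]; push_cast; rw [mul_one]; exact hε.trans (le_max_right _ _)
    refine (Finset.sum_le_sum e1).trans ?_
    have e2 : ∑ v ∈ V4 L m F, ∑ w ∈ V4 L m F,
        d ^ (-t) * ((max (H984N.sd v w) 1 : ℤ) : ℝ) ^ (-t) = d ^ (-t) * En4 t L m F := by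
      unfold En4
      rw [Finset.mul_sum]
      refine Finset.sum_congr rfl fun v _ => ?_
      rw [Finset.mul_sum]
    rw [e2]
    have e3 : (c0 * (m : ℝ) ^ (3/4 : ℝ)) ^ 2 ≤ ((V4 L m F).card : ℝ) ^ 2 :=
      pow_le_pow_left₀ (by positivity) hcard 2
    have e4 : (c0 * (m : ℝ) ^ (3/4 : ℝ)) ^ 2 = c0 ^ 2 * (m : ℝ) ^ (3/2 : ℝ) := by
      rw [mul_pow, ← Real.rpow_natCast ((m : ℝ) ^ (3/4 : ℝ)) 2, ← Real.rpow_mul hm0.le]
      norm_num
    rw [e4] at e3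
    calc d ^ (-t) * En4 t L m F ≤ d ^ (-t) * (E0 * (m : ℝ) ^ (3/2 - t)) :=
          mul_le_mul_of_nonneg_left hEn (by positivity)
      _ = E0 / c0 ^ 2 * (d * m) ^ (-t) * (c0 ^ 2 * (m : ℝ) ^ (3/2 : ℝ)) := by
          rw [Real.mul_rpow hd.le hm0.le, sub_eq_add_neg, Real.rpow_add hm0]
          field_simp
      _ ≤ E0 / c0 ^ 2 * (d * m) ^ (-t) * ((V4 L m F).card : ℝ) ^ 2 :=
          mul_le_mul_of_nonneg_left e3 hE.le

/-- The event that the path of the box comes back. -/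
def RetEv (r R ρ : ℤ) (F : Finset Edg) : Prop :=
  ∃ i j : ℕ, i ≤ j ∧ j ≤ (H984H.bx ρ).len F ∧
    H984H.sd ((H984H.bx ρ).walk F i).1 (0, 0) ≤ r ∧
      R ≤ H984H.sd ((H984H.bx ρ).walk F j).1 (0, 0)

theorem sd_zero_lt (ω : H984H.Conf) {n k : ℕ} (hk : k ≤ n) :
    ∀ j < k, H984H.sd (H984H.path ω j).1 (0, 0) < (n : ℤ) + 2 := by
  intro j hj
  have h1 := H984H.path_sd ω (Nat.zero_le j)
  have h2 : H984H.sd (H984H.path ω j).1 (0, 0) =
      H984H.sd (H984H.path ω 0).1 (H984H.path ω j).1 := by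
    have : (H984H.path ω 0).1 = (0, 0) := rfl
    rw [this]
    simp only [H984H.sd]
    rw [abs_sub_comm, abs_sub_comm (H984H.path ω j).1.2]
  rw [h2]
  omega

/-- On the event the vertices of the good scale are approximate double points. -/
theorem dbl_of_ev (hdet : St_det) {n : ℕ} (hn : 1 ≤ n) (ω : H984H.Conf) {L m : ℕ} (hL : 2 ≤ L)
    (hm : 64 ≤ m) (hU : 39 * ((L * m : ℕ) : ℤ) < (n : ℤ) + 2) {r R : ℤ}
    (hr : 19 * ((L * m : ℕ) : ℤ) ≤ r)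
    (hGO : GO (L * m : ℕ) (cz (H984H.cut ω ((n : ℤ) + 2))))
    (hGD : GD (L * m : ℕ) (cz (H984H.cut ω ((n : ℤ) + 2))))
    (hret : ¬ RetEv r R ((n : ℤ) + 2) (H984H.cut ω ((n : ℤ) + 2)))
    {k0 : ℕ} (hk0 : k0 ≤ n) (hR : R ≤ H984H.sd (H984H.path ω k0).1 (0, 0))
    {v : Vtx} (hv : v ∈ V4 L m (cz (H984H.cut ω ((n : ℤ) + 2)))) :
    ∃ a b c : ℕ, a < b ∧ b < c ∧ c ≤ n ∧ (H984H.path ω a).1 = v ∧ (H984H.path ω c).1 = v ∧
      15 * ((L * m : ℕ) : ℤ) ≤ H984N.sd (H984H.path ω b).1 v := by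
  classical
  have hρ : (1 : ℤ) ≤ (n : ℤ) + 2 := by omega
  have hok := H984H.bx_ok hρ
  have hsub := H984H.Couple_cut_sub ω ((n : ℤ) + 2)
  unfold V4 at hv
  rw [Finset.mem_filter] at hv
  have hU0 : (1 : ℤ) ≤ ((L * m : ℕ) : ℤ) := by
    have : 0 < L * m := Nat.mul_pos (by omega) (by omega)
    omega
  obtain ⟨i, j, l, hij, hjl, hl, hi, hlv, hsd⟩ :=
    hdet (toN (H984H.bx ((n : ℤ) + 2))) (cz (H984H.cut ω ((n : ℤ) + 2))) (ok_toN hok)
      (cz_edges hsub) L m hL hm (by show -((n : ℤ) + 2) < _; omega)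
      (by show _ < ((n : ℤ) + 2); omega) (by show _ < ((n : ℤ) + 2); omega) hGO hGD v hv.1 hv.2
  rw [len_eq] at hl
  rw [walk_eq] at hi hlv hsd
  have hcp : ∀ k ≤ n, k + 1 ≤ (H984H.bx ((n : ℤ) + 2)).len (H984H.cut ω ((n : ℤ) + 2)) ∧
      (H984H.bx ((n : ℤ) + 2)).walk (H984H.cut ω ((n : ℤ) + 2))
        ((H984H.bx ((n : ℤ) + 2)).len (H984H.cut ω ((n : ℤ) + 2)) - 1 - k) = H984H.path ω k :=
    fun k hk => H984H.couple hρ ω (sd_zero_lt ω hk)
  obtain ⟨N, hN⟩ : ∃ N, N = (H984H.bx ((n : ℤ) + 2)).len (H984H.cut ω ((n : ℤ) + 2)) := ⟨_, rfl⟩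
  have hstop := H984H.walk_len hok hsub
  rw [← hN] at hl hcp hstop
  have hvc := hv.1
  rw [mem_core4] at hvc
  -- the last visit is not the end
  have hlN : l ≠ N := by
    intro h
    rw [h, hstop] at hlv
    rw [← hlv] at hvc
    simp only [H984H.Dm.stop] at hvc
    omega
  -- the first visit is after the far point
  have hvr : H984H.sd v (0, 0) ≤ r := by
    unfold H984H.sd
    simp only [sub_zero]
    apply max_le
    · rw [abs_le]; constructor <;> omega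
    · rw [abs_le]; constructor <;> omega
  obtain ⟨h1, h2⟩ := hcp k0 hk0
  have hik : N - 1 - k0 < i := by
    by_contra hcon
    push Not at hcon
    apply hret
    refine ⟨i, N - 1 - k0, hcon, ?_, ?_, ?_⟩
    · rw [← hN]; omega
    · rw [hi]; exact hvr
    · rw [h2]; exact hR
  refine ⟨N - 1 - l, N - 1 - j, N - 1 - i, by omega, by omega, by omega, ?_, ?_, ?_⟩
  · rw [← (hcp (N - 1 - l) (by omega)).2, show N - 1 - (N - 1 - l) = l by omega]
    exact hlv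
  · rw [← (hcp (N - 1 - i) (by omega)).2, show N - 1 - (N - 1 - i) = i by omega]
    exact hi
  · rw [← (hcp (N - 1 - j) (by omega)).2, show N - 1 - (N - 1 - j) = j by omega]
    exact hsd

/-- Approximate double points of the rescaled curve. -/
theorem DD_of_times {n : ℕ} (hn : 1 ≤ n) (ω : H984H.Conf) {d : ℝ}
    (hd : d = (n : ℝ) ^ (-(4/7) : ℝ)) {a b c : ℕ} (hab : a < b) (hbc : b < c) (hc : c ≤ n)
    {v : Vtx} (ha : (H984H.path ω a).1 = v) (hcv : (H984H.path ω c).1 = v) {U : ℤ}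
    (hb : 15 * U ≤ H984N.sd (H984H.path ω b).1 v) {ε η : ℝ} (hε : d ≤ ε)
    (hη : η ≤ d * (15 * U)) {B : Set ℂ} (hB : pq d v ∈ B) :
    pq d v ∈ DD η ε B (H984H.curve n ω) := by
  have hn0 : (0 : ℝ) < n := by exact_mod_cast (by omega : 0 < n)
  have hd0 : 0 < d := by rw [hd]; positivity
  have hnode : ∀ k : ℕ, k ≤ n → (k : ℝ) / n ∈ unitInterval := by
    intro k hk
    refine ⟨by positivity, ?_⟩
    rw [div_le_one hn0]
    exact_mod_cast hk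
  have hcv' : ∀ (k : ℕ) (hk : k ≤ n), H984H.curve n ω ⟨(k : ℝ) / n, hnode k hk⟩ =
      (d : ℂ) * H984H.place (H984H.path ω k) := by
    intro k hk
    unfold H984H.curve
    rw [pl_node (by omega) _ hk _ rfl, ← hd]
    rfl
  have hdi : dist ((d : ℂ) * H984H.place (H984H.path ω a)) (pq d v) ≤ d / 2 := by
    rw [← ha]; exact dist_gam_pq hd0.le _
  have hdl : dist ((d : ℂ) * H984H.place (H984H.path ω c)) (pq d v) ≤ d / 2 := by
    rw [← hcv]; exact dist_gam_pq hd0.le _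
  refine ⟨hB, ⟨(a : ℝ) / n, hnode a (by omega)⟩, ⟨(b : ℝ) / n, hnode b (by omega)⟩,
    ⟨(c : ℝ) / n, hnode c hc⟩, ?_, ?_, ?_, ?_, ?_⟩
  · rw [Subtype.mk_le_mk]
    exact div_le_div_of_nonneg_right (by exact_mod_cast hab.le) hn0.le
  · rw [Subtype.mk_le_mk]
    exact div_le_div_of_nonneg_right (by exact_mod_cast hbc.le) hn0.le
  · rw [hcv' a (by omega)]
    linarith
  · rw [hcv' c hc]
    linarith
  · rw [hcv' b (by omega)]
    have h5 := pq_dist hd0 (H984H.path ω b).1 v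
    have h6 := dist_triangle (pq d (H984H.path ω b).1)
      ((d : ℂ) * H984H.place (H984H.path ω b)) (pq d v)
    have h7 := dist_gam_pq hd0.le (H984H.path ω b)
    rw [dist_comm] at h7
    have h8 : ((15 * U : ℤ) : ℝ) ≤ ((H984N.sd (H984H.path ω b).1 v : ℤ) : ℝ) := by
      exact_mod_cast hb
    have h9 : d * (15 * (U : ℝ)) ≤ d * ((H984N.sd (H984H.path ω b).1 v : ℤ) : ℝ) := by
      apply mul_le_mul_of_nonneg_left _ hd0.le
      push_cast at h8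
      exact h8
    linarith

theorem exists_small {A a ε : ℝ} (hA : 0 < A) (ha : 0 < a) (hε : 0 < ε) :
    ∃ y : ℝ, 0 < y ∧ y ≤ 1 ∧ A * y ^ a ≤ ε := by
  refine ⟨min 1 ((ε / A) ^ (1 / a)), lt_min one_pos (by positivity), min_le_left _ _, ?_⟩
  have h1 : (min 1 ((ε / A) ^ (1 / a))) ^ a ≤ ((ε / A) ^ (1 / a)) ^ a :=
    Real.rpow_le_rpow (le_min zero_le_one (by positivity)) (min_le_right _ _) ha.le
  rw [← Real.rpow_mul (by positivity), one_div_mul_cancel ha.ne', Real.rpow_one] at h1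
  calc A * (min 1 ((ε / A) ^ (1 / a))) ^ a ≤ A * (ε / A) :=
        mul_le_mul_of_nonneg_left h1 hA.le
    _ = ε := by field_simp

theorem mem_V4_core {L m : ℕ} {F : Finset Edg} {v : Vtx} (hv : v ∈ V4 L m F) :
    v ∈ core4 (L * m : ℕ) := by
  classical
  unfold V4 at hv
  exact Finset.mem_of_mem_filter v hv

theorem scale_facts {L M J : ℕ} {κ r0 d : ℝ} (hL0 : (0 : ℝ) < L) (hM0 : (0 : ℝ) < M)
    (hr00 : 0 < r0) (hr0κ : L * M * 64 ^ J * r0 = κ) (hd0 : 0 < d) (hdr : d ≤ r0 / 2) :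
    ∃ r : ℕ, 1 ≤ r ∧ (∀ j < J, d * ((L * (M * (64 ^ j * r)) : ℕ) : ℝ) ≤ κ) ∧
      (∀ j : ℕ, L * M * r0 / 2 ≤ d * ((L * (M * (64 ^ j * r)) : ℕ) : ℝ)) ∧
      (∀ j : ℕ, M * r0 / 2 ≤ d * ((M * (64 ^ j * r) : ℕ) : ℝ)) := by
  obtain ⟨r, hr⟩ : ∃ r : ℕ, r = ⌊r0 / d⌋₊ := ⟨_, rfl⟩
  have hrd1 : (r : ℝ) ≤ r0 / d := by rw [hr]; exact Nat.floor_le (by positivity)
  have hrd2 : r0 / d < r + 1 := by rw [hr]; exact Nat.lt_floor_add_one _
  have hrd3 : 2 ≤ r0 / d := by rw [le_div_iff₀ hd0]; linarith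
  have hr1 : 1 ≤ r := by
    have : (1 : ℝ) < r + 1 := by linarith
    have : (0 : ℝ) < r := by linarith
    exact_mod_cast this
  have hdr1 : d * r ≤ r0 := by
    rw [le_div_iff₀ hd0] at hrd1; linarith
  have hdr2 : r0 / 2 ≤ d * r := by
    have h1 : (1 : ℝ) ≤ r := by exact_mod_cast hr1
    have h2 : r0 / d ≤ 2 * r := by linarith
    rw [div_le_iff₀ hd0] at h2
    linarith
  refine ⟨r, hr1, ?_, ?_, ?_⟩
  · intro j hj
    have h2 : (64 : ℝ) ^ j ≤ 64 ^ J := pow_le_pow_right₀ (by norm_num) hj.le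
    push_cast
    calc d * (L * (M * (64 ^ j * (r : ℝ)))) = L * M * 64 ^ j * (d * r) := by ring
      _ ≤ L * M * 64 ^ J * r0 := by
          apply mul_le_mul _ hdr1 (by positivity) (by positivity)
          apply mul_le_mul_of_nonneg_left h2 (by positivity)
      _ = κ := hr0κ
  · intro j
    have h2 : (1 : ℝ) ≤ 64 ^ j := one_le_pow₀ (by norm_num)
    push_cast
    calc L * M * r0 / 2 = L * M * 1 * (r0 / 2) := by ring
      _ ≤ L * M * 64 ^ j * (d * r) := by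
          apply mul_le_mul _ hdr2 (by positivity) (by positivity)
          apply mul_le_mul_of_nonneg_left h2 (by positivity)
      _ = d * (L * (M * (64 ^ j * (r : ℝ)))) := by ring
  · intro j
    have h3 : (1 : ℝ) ≤ 64 ^ j := one_le_pow₀ (by norm_num)
    push_cast
    calc M * r0 / 2 = M * 1 * (r0 / 2) := by ring
      _ ≤ M * 64 ^ j * (d * r) := by
          apply mul_le_mul _ hdr2 (by positivity) (by positivity)
          apply mul_le_mul_of_nonneg_left h3 (by positivity)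
      _ = d * (M * (64 ^ j * (r : ℝ))) := by ring

theorem radii_facts {κ x y S d : ℝ} {n : ℕ} (hκ0 : 0 < κ) (hx0 : 0 < x) (hx1 : x ≤ 1)
    (hy0 : 0 < y) (hy1 : y ≤ 1) (hκx : 80 * κ ≤ x * y) (hd0 : 0 < d) (hdS : d * S = 1)
    (hSn : S ≤ n) (hS0 : 0 < S) (hdx : d ≤ x / 2) (hdκ : d ≤ κ) :
    ∃ rr : ℤ, 1 ≤ rr ∧ rr ≤ ⌈(x * S - 1) / 2⌉ ∧ ⌈(x * S - 1) / 2⌉ < (n : ℤ) + 2 ∧
      0 < (⌈(x * S - 1) / 2⌉ : ℝ) ∧
      (rr : ℝ) ≤ y * (⌈(x * S - 1) / 2⌉ : ℝ) ∧ (∀ U : ℕ, d * (U : ℝ) ≤ κ →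
        19 * (U : ℤ) ≤ rr ∧ 39 * (U : ℤ) < (n : ℤ) + 2) := by
  have hSd : ∀ z : ℝ, z / d = z * S := by
    intro z
    rw [div_eq_iff hd0.ne', mul_assoc, mul_comm S d, hdS, mul_one]
  have hxy : x * y ≤ x := by nlinarith
  obtain ⟨R, hR⟩ : ∃ R : ℤ, R = ⌈(x * S - 1) / 2⌉ := ⟨_, rfl⟩
  have hκS : 1 ≤ κ * S := by
    rw [← hSd, le_div_iff₀ hd0]; linarith
  have hxS : 2 ≤ x * S := by
    rw [← hSd, le_div_iff₀ hd0]; linarith
  have hRge : x * S / 4 ≤ (R : ℝ) := by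
    have := Int.le_ceil ((x * S - 1) / 2)
    rw [hR]; linarith
  have hRlt : (R : ℝ) < (x * S - 1) / 2 + 1 := by rw [hR]; exact Int.ceil_lt_add_one _
  have hR0 : (0 : ℝ) < R := by linarith
  have hrrle : (⌊20 * κ * S⌋ : ℝ) ≤ 20 * κ * S := Int.floor_le _
  have hyR : y * (x * S / 4) ≤ y * R := mul_le_mul_of_nonneg_left hRge hy0.le
  have hkS : 80 * κ * S ≤ x * y * S := mul_le_mul_of_nonneg_right hκx hS0.le
  have hrrR : (⌊20 * κ * S⌋ : ℝ) ≤ y * R := by linarith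
  have hxn : x * S ≤ n := by nlinarith
  rw [← hR]
  refine ⟨⌊20 * κ * S⌋, ?_, ?_, ?_, hR0, hrrR, ?_⟩
  · rw [Int.le_floor]; push_cast; linarith
  · have h1 : y * R ≤ 1 * R := mul_le_mul_of_nonneg_right hy1 hR0.le
    have h2 : (⌊20 * κ * S⌋ : ℝ) ≤ R := by linarith
    exact_mod_cast h2
  · have h2 : (R : ℝ) < (n : ℝ) + 2 := by linarith
    exact_mod_cast h2
  · intro U hU
    have h1 : (U : ℝ) ≤ κ * S := by
      rw [← hSd, le_div_iff₀ hd0, mul_comm]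
      exact hU
    constructor
    · rw [Int.le_floor]
      push_cast
      linarith
    · have h3 : x * y * S ≤ x * S := mul_le_mul_of_nonneg_right hxy hS0.le
      have h2 : 39 * (U : ℝ) < (n : ℝ) + 2 := by linarith
      exact_mod_cast h2

/-- The good set at the good scale. -/
theorem good_ev (hdet : St_det) {n : ℕ} (hn1 : 1 ≤ n) (ω : H984H.Conf) {d : ℝ}
    (hd : d = (n : ℝ) ^ (-(4/7) : ℝ)) (hd0 : 0 < d) {L m : ℕ} (hL : 2 ≤ L) (hm : 64 ≤ m)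
    {c0 E0 t : ℝ} (hc0 : 0 < c0) (hE0 : 0 < E0) (ht : 0 < t) {κ g : ℝ} (hg0 : 0 < g)
    (hUκ : d * ((L * m : ℕ) : ℝ) ≤ κ) (hgm : g ≤ d * (m : ℝ))
    (hU : 39 * ((L * m : ℕ) : ℤ) < (n : ℤ) + 2) {r R : ℤ}
    (hr : 19 * ((L * m : ℕ) : ℤ) ≤ r)
    (hgd : Gd4 c0 E0 t L m (H984H.cut ω ((n : ℤ) + 2)))
    (hret : ¬ RetEv r R ((n : ℤ) + 2) (H984H.cut ω ((n : ℤ) + 2)))
    {k0 : ℕ} (hk0 : k0 ≤ n) (hR : R ≤ H984H.sd (H984H.path ω k0).1 (0, 0))
    {ε η : ℝ} (hdε : d ≤ ε) (hη : η ≤ 2 * (d * ((L * m : ℕ) : ℝ))) :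
    Good t ε (2 ^ (-t) / (E0 / c0 ^ 2 * g ^ (-t)))
      (DD η ε (Set.Icc (-(10 * κ)) 0 ×ℂ Set.Icc η (20 * κ)) (H984H.curve n ω)) := by
  have hgd' := Gd4_cz (by omega : 1 ≤ L) (by omega : 1 ≤ m) hgd
  obtain ⟨⟨hGO, hGD⟩, hcard, hEn⟩ := hgd'
  have hg := good_of_En4 hd0 hm hc0 hE0 ht hcard hEn hdε
    (K := DD η ε (Set.Icc (-(10 * κ)) 0 ×ℂ Set.Icc η (20 * κ)) (H984H.curve n ω)) (by
    intro v hv
    obtain ⟨i1, i2, i3, h12, h23, h3n, hv1, hv3, hv2⟩ := dbl_of_ev hdet hn1 ω hL hm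
      hU hr hGO hGD hret hk0 hR hv
    have hv := mem_V4_core hv
    rw [mem_core4] at hv
    obtain ⟨U, hUU⟩ : ∃ U : ℕ, U = L * m := ⟨_, rfl⟩
    rw [← hUU] at hUκ hη hv hv2
    have b5 : 0 ≤ d * (U : ℝ) := by positivity
    refine DD_of_times hn1 ω hd h12 h23 h3n hv1 hv3 hv2 hdε
      (by push_cast; linarith) ?_
    have a1 : -(10 * (U : ℝ)) ≤ v.1 := by exact_mod_cast hv.1.1
    have a2 : (v.1 : ℝ) ≤ -(8 * (U : ℝ)) := by exact_mod_cast hv.1.2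
    have a3 : 17 * (U : ℝ) ≤ v.2 := by exact_mod_cast hv.2.1
    have a4 : (v.2 : ℝ) ≤ 19 * (U : ℝ) := by exact_mod_cast hv.2.2
    have b1 := mul_le_mul_of_nonneg_left a1 hd0.le
    have b2 := mul_le_mul_of_nonneg_left a2 hd0.le
    have b3 := mul_le_mul_of_nonneg_left a3 hd0.le
    have b4 := mul_le_mul_of_nonneg_left a4 hd0.le
    rw [Complex.mem_reProdIm, Set.mem_Icc, Set.mem_Icc]
    unfold pq
    simp only
    refine ⟨⟨by linarith, by linarith⟩, by linarith, by linarith⟩)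
  intro s' hs' hcov
  have h1 := hg s' hs' hcov
  refine le_trans ?_ h1
  have h3 : (d * (m : ℝ)) ^ (-t) ≤ g ^ (-t) :=
    Real.rpow_le_rpow_of_nonpos hg0 hgm (by linarith)
  have h4 : 0 < (d * (m : ℝ)) ^ (-t) := by
    apply Real.rpow_pos_of_pos
    linarith
  apply div_le_div_of_nonneg_left (by positivity) (by positivity)
  apply mul_le_mul_of_nonneg_left h3 (by positivity)

theorem limLH : St_limLH := by
  rintro ⟨C, hC, hTU⟩ hret hgood hind hdet φ hφ μ hμ t ht ht1 ρ hρ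
  obtain ⟨L, M, c0, E0, p, hL, hM, hc0, hE0, hp, hp1, hG⟩ := hgood t ht ht1
  obtain ⟨A0, hA0, hlow⟩ := H984H.tail_low hC hTU
  obtain ⟨a, A, ha, hA, hret⟩ := hret
  refine ae_dimH φ hφ μ hμ ht
    (fun f => {z : ℂ | 0 < z.im ∧ dist z 0 < ρ ∧ ∃ η : ℝ, 0 < η ∧ z ∈ DPt η f}) ?_
  intro ε hε
  -- the number of scales
  obtain ⟨J, hJ⟩ : ∃ J : ℕ, (1 - p) ^ J ≤ ε / 3 := by
    have h2 : Tendsto (fun J : ℕ => (1 - p) ^ J) atTop (𝓝 0) :=
      tendsto_pow_atTop_nhds_zero_of_lt_one (by linarith) (by linarith)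
    exact ((h2.eventually_lt_const (by positivity : (0:ℝ) < ε / 3)).exists).imp
      fun J hJ => hJ.le
  obtain ⟨x, hx0, hx1, hx⟩ := exists_small hA0 (by norm_num : (0:ℝ) < 7/4)
    (by positivity : 0 < ε / 3)
  obtain ⟨y, hy0, hy1, hy⟩ := exists_small hA ha (by positivity : 0 < ε / 3)
  obtain ⟨κ, hκ⟩ : ∃ κ : ℝ, κ = min (x * y / 80) (ρ / 50) := ⟨_, rfl⟩
  have hκ0 : 0 < κ := by rw [hκ]; exact lt_min (by positivity) (by positivity)
  have hκx : 80 * κ ≤ x * y := by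
    have := min_le_left (x * y / 80) (ρ / 50)
    rw [hκ]; linarith
  have hκρ : 50 * κ ≤ ρ := by
    have := min_le_right (x * y / 80) (ρ / 50)
    rw [hκ]; linarith
  have hxy : x * y ≤ x := by nlinarith
  have hκ80 : 80 * κ ≤ 1 := by linarith
  have hL0 : (0 : ℝ) < L := by exact_mod_cast (by omega : 0 < L)
  have hM0 : (0 : ℝ) < M := by exact_mod_cast (by omega : 0 < M)
  obtain ⟨r0, hr0⟩ : ∃ r0 : ℝ, r0 = κ / (L * M * 64 ^ J) := ⟨_, rfl⟩
  have hr00 : 0 < r0 := by rw [hr0]; positivity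
  have hr0κ : L * M * 64 ^ J * r0 = κ := by rw [hr0]; field_simp
  have hLM0 : 0 < L * M * r0 := by positivity
  have hLMκ : L * M * r0 ≤ κ := by
    rw [← hr0κ]
    have : (1 : ℝ) ≤ 64 ^ J := one_le_pow₀ (by norm_num)
    nlinarith
  refine ⟨2 ^ (-t) / (E0 / c0 ^ 2 * (M * r0 / 2) ^ (-t)), L * M * r0,
    Set.Icc (-(10 * κ)) 0 ×ℂ Set.Icc (L * M * r0) (20 * κ), by positivity,
    isCompact_Icc.reProdIm isCompact_Icc, ?_, ?_⟩
  · rintro f z ⟨hz, s, u, t', h1, h2, h3, h4, h5⟩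
    rw [Complex.mem_reProdIm, Set.mem_Icc, Set.mem_Icc] at hz
    refine ⟨by linarith, ?_, L * M * r0, hLM0, s, u, t', h1, h2, dist_le_zero.1 h3,
      dist_le_zero.1 h4, ?_⟩
    · rw [dist_zero_right]
      have h6 := Complex.norm_le_abs_re_add_abs_im z
      have h7 : |z.re| ≤ 10 * κ := by rw [abs_le]; constructor <;> linarith
      have h8 : |z.im| ≤ 20 * κ := by rw [abs_le]; constructor <;> linarith
      linarith
    · linarith
  intro ε' hε'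
  obtain ⟨n0, hn0⟩ : ∃ n0 : ℕ, ∀ n : ℕ, n0 ≤ n →
      (n:ℝ) ^ (-(4/7) : ℝ) ≤ min (min ε' (x / 2)) (min κ (r0 / 2)) ∧ 1 ≤ n := by
    have h1 : Tendsto (fun n : ℕ => (n : ℝ) ^ (-(4/7) : ℝ)) atTop (𝓝 0) :=
      (tendsto_rpow_neg_atTop (by norm_num : (0:ℝ) < 4/7)).comp tendsto_natCast_atTop_atTop
    have h2 : 0 < min (min ε' (x / 2)) (min κ (r0 / 2)) :=
      lt_min (lt_min hε' (by positivity)) (lt_min hκ0 (by positivity))
    have h3 := (h1.eventually (ge_mem_nhds h2)).and (eventually_ge_atTop 1)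
    exact eventually_atTop.1 h3
  refine ⟨n0, fun n hn => ?_⟩
  obtain ⟨hdm, hn1⟩ := hn0 n hn
  have hnR : (1 : ℝ) ≤ n := by exact_mod_cast hn1
  have hnR0 : (0 : ℝ) < n := by linarith
  obtain ⟨d, hd⟩ : ∃ d : ℝ, d = (n : ℝ) ^ (-(4/7) : ℝ) := ⟨_, rfl⟩
  obtain ⟨S, hS⟩ : ∃ S : ℝ, S = (n : ℝ) ^ (4/7 : ℝ) := ⟨_, rfl⟩
  rw [← hd] at hdm
  have hd0 : 0 < d := by rw [hd]; positivity
  have hdε : d ≤ ε' := hdm.trans ((min_le_left _ _).trans (min_le_left _ _))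
  have hdx : d ≤ x / 2 := hdm.trans ((min_le_left _ _).trans (min_le_right _ _))
  have hdκ : d ≤ κ := hdm.trans ((min_le_right _ _).trans (min_le_left _ _))
  have hdr : d ≤ r0 / 2 := hdm.trans ((min_le_right _ _).trans (min_le_right _ _))
  have hdS : d * S = 1 := by
    rw [hd, hS, ← Real.rpow_add hnR0]; norm_num
  have hSn : S ≤ n := by
    rw [hS]
    calc (n : ℝ) ^ (4/7 : ℝ) ≤ (n : ℝ) ^ (1 : ℝ) :=
          Real.rpow_le_rpow_of_exponent_le hnR (by norm_num)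
      _ = n := Real.rpow_one _
  have hS0 : 0 < S := by rw [hS]; positivity
  obtain ⟨r, hr1, hU, hU2, hU3⟩ := scale_facts hL0 hM0 hr00 hr0κ hd0 hdr
  obtain ⟨rr, hrr1, hrR, hRn, hR0, hrrR, hUr⟩ := radii_facts hκ0 hx0 hx1 hy0 hy1 hκx hd0 hdS
    hSn hS0 hdx hdκ
  obtain ⟨R, hR⟩ : ∃ R : ℤ, R = ⌈(x * S - 1) / 2⌉ := ⟨_, rfl⟩
  rw [← hR] at hrR hRn hR0 hrrR
  have hgeo : ∀ j < J, 39 * ((L * (M * (64 ^ j * r)) : ℕ) : ℤ) < (n : ℤ) + 2 :=
    fun j hj => (hUr _ (hU j hj)).2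
  have hEd : ∀ j < J, SA (L * (M * (64 ^ j * r)) : ℕ) ⊆ (H984H.bx ((n : ℤ) + 2)).edges := by
    intro j hj
    have h1 := hgeo j hj
    have h0 : (0 : ℤ) ≤ ((L * (M * (64 ^ j * r)) : ℕ) : ℤ) := Int.natCast_nonneg _
    exact SA_sub (D := toN (H984H.bx ((n : ℤ) + 2))) (by show -((n : ℤ) + 2) < _; omega)
      (by show _ < ((n : ℤ) + 2); omega) (by show _ < ((n : ℤ) + 2); omega)
  -- the three bad events
  have hb1 : H984H.perc.real {ω | H984H.reach n ω ≤ x * (n : ℝ) ^ (4/7 : ℝ)} ≤ ε / 3 :=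
    (hlow n x hn1 hx0).trans hx
  have hb2 : H984H.perc.real {ω | RetEv rr R ((n : ℤ) + 2) (H984H.cut ω ((n : ℤ) + 2))} ≤
      ε / 3 := by
    rw [H984H.perc_cut ((n : ℤ) + 2) (RetEv rr R ((n : ℤ) + 2))]
    refine (hret rr R ((n : ℤ) + 2) hrr1 hrR hRn).trans (le_trans ?_ hy)
    have hrr0 : (0 : ℝ) ≤ rr := by exact_mod_cast (by omega : 0 ≤ rr)
    apply mul_le_mul_of_nonneg_left _ hA.le
    apply Real.rpow_le_rpow (by positivity) _ ha.le
    rw [div_le_iff₀ hR0]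
    exact hrrR
  have hb3 : H984H.perc.real {ω | ∀ j < J, ¬ Gd4 c0 E0 t L (M * (64 ^ j * r))
      (H984H.cut ω ((n : ℤ) + 2))} ≤ ε / 3 := by
    rw [H984H.perc_cut ((n : ℤ) + 2) (fun F => ∀ j < J, ¬ Gd4 c0 E0 t L (M * (64 ^ j * r)) F)]
    exact (hind p c0 E0 t L M r hp1 hL hM hr1 hG J _ hEd).trans hJ
  have hsub : {ω : H984H.Conf | ¬ Good t ε' (2 ^ (-t) / (E0 / c0 ^ 2 * (M * r0 / 2) ^ (-t)))
      (DD (L * M * r0) ε' (Set.Icc (-(10 * κ)) 0 ×ℂ Set.Icc (L * M * r0) (20 * κ))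
        (H984H.curve n ω))} ⊆
      ({ω | H984H.reach n ω ≤ x * (n : ℝ) ^ (4/7 : ℝ)} ∪
        {ω | RetEv rr R ((n : ℤ) + 2) (H984H.cut ω ((n : ℤ) + 2))}) ∪
      {ω | ∀ j < J, ¬ Gd4 c0 E0 t L (M * (64 ^ j * r)) (H984H.cut ω ((n : ℤ) + 2))} := by
    intro ω hω
    by_contra hcon
    simp only [Set.mem_union, Set.mem_ofPred_eq, not_or, not_le, not_forall, not_not] at hcon
    obtain ⟨⟨hc1, hc2⟩, j, hj, hgd⟩ := hcon
    apply hω
    rw [← hS] at hc1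
    have h64 : 1 ≤ 64 ^ j * r :=
      Nat.one_le_iff_ne_zero.2 (Nat.mul_ne_zero (by positivity) (by omega))
    have hMm : 64 ≤ M * (64 ^ j * r) := by nlinarith
    obtain ⟨k0, hk0, hk0r⟩ := H984H.Disp_exists_reach ω n
    have hk0R : R ≤ H984H.sd (H984H.path ω k0).1 (0, 0) := by
      rw [hR]
      exact H984H.Disp_le_sd (by rw [hk0r]; exact hc1.le)
    exact good_ev hdet hn1 ω hd hd0 hL hMm hc0 hE0 ht (by positivity) (hU j hj) (hU3 j)
      (hgeo j hj) (hUr _ (hU j hj)).1 hgd hc2 hk0 hk0R hdε (by have := hU2 j; linarith)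
  have hm1 := measureReal_mono (μ := H984H.perc) hsub
  have hm2 := measureReal_union_le (μ := H984H.perc)
    ({ω : H984H.Conf | H984H.reach n ω ≤ x * (n : ℝ) ^ (4/7 : ℝ)} ∪
        {ω | RetEv rr R ((n : ℤ) + 2) (H984H.cut ω ((n : ℤ) + 2))})
    {ω | ∀ j < J, ¬ Gd4 c0 E0 t L (M * (64 ^ j * r)) (H984H.cut ω ((n : ℤ) + 2))}
  have hm3 := measureReal_union_le (μ := H984H.perc)
    {ω : H984H.Conf | H984H.reach n ω ≤ x * (n : ℝ) ^ (4/7 : ℝ)}
    {ω | RetEv rr R ((n : ℤ) + 2) (H984H.cut ω ((n : ℤ) + 2))}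
  linarith

end Pool.Agent.W174.DP
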